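import Mathlib

set_option autoImplicit false

/-!
# 4-arc-connectivity is not enough for compatible decompositions

A 4-arc-connected Eulerian digraph with 4 vertices and 16 arcs (every vertex has in-degree and
out-degree 4) and a 2-transition system without a compatible decomposition. Transition systems are
permutations `σ` of the arcs with `tail (σ e) = head e`, and a decomposition into closed trails is
a permutation `τ` of the same kind (its cycles are the closed trails), as in the frozen statement.
-/

namespace Pool.Agent.Results.MP_8148b3_co.FourNotEnough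

/-- Every finite loopless digraph `(V, E, head, tail)` that is `k`-arc-connected, with any
2-transition system `σ`, has a compatible decomposition `τ` into closed trails. -/
def Suffices (k : ℕ) : Prop :=
  ∀ (V E : Type) [Fintype V] [DecidableEq V] [Fintype E] (head tail : E → V),
    (∀ e, head e ≠ tail e) →
    (∀ S : Finset V, S.Nonempty → S ≠ Finset.univ →
      k ≤ (Finset.univ.filter (fun e : E => tail e ∈ S ∧ head e ∉ S)).card) →
    ∀ σ : Equiv.Perm E, (∀ e, tail (σ e) = head e) →
      ∃ τ : Equiv.Perm E, (∀ e, tail (τ e) = head e) ∧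
        ∀ e, ¬ τ.SameCycle e (σ e)

/-- tails of the arcs -/
def tl : Fin 16 → Fin 4 := ![0, 1, 2, 3, 0, 1, 2, 3, 0, 1, 2, 3, 0, 1, 2, 3]

/-- heads of the arcs -/
def hd : Fin 16 → Fin 4 := ![3, 0, 1, 1, 2, 2, 3, 1, 2, 3, 0, 1, 3, 2, 0, 0]

/-- the transition system -/
def sg : Fin 16 → Fin 16 := ![3, 12, 1, 9, 10, 2, 7, 13, 14, 15, 8, 5, 11, 6, 4, 0]

/-- the inverse of the transition system -/
def sgi : Fin 16 → Fin 16 := ![15, 2, 5, 0, 14, 11, 13, 6, 10, 3, 4, 12, 1, 7, 8, 9]

/-- the transition system as a permutation -/
def sgP : Equiv.Perm (Fin 16) where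
  toFun := sg
  invFun := sgi
  left_inv := by decide
  right_inv := by decide

/-- in the partial map `m`, the target `t` is reached from `x` -/
def reach (m : List (Fin 16 × Fin 16)) : ℕ → Fin 16 → Fin 16 → Bool
  | 0, _, _ => false
  | n + 1, x, t => m.any (fun p => p.1 == x && (p.2 == t || reach m n p.2 t))

theorem reach_sound (m : List (Fin 16 × Fin 16)) (τ : Equiv.Perm (Fin 16))
    (hm : ∀ p ∈ m, τ p.1 = p.2) :
    ∀ (n : ℕ) (x t : Fin 16), reach m n x t = true → τ.SameCycle x t := by
  intro n
  induction n with
  | zero => intro x t h; simp [reach] at h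
  | succ n ih =>
    intro x t h
    rw [reach, List.any_eq_true] at h
    obtain ⟨p, hp, h⟩ := h
    rw [Bool.and_eq_true, Bool.or_eq_true, beq_iff_eq, beq_iff_eq] at h
    obtain ⟨rfl, h⟩ := h
    have h1 : τ.SameCycle p.1 p.2 := ⟨1, by rw [zpow_one]; exact hm p hp⟩
    rcases h with rfl | h
    · exact h1
    · exact h1.trans (ih _ _ h)

/-- the partial map `m` already violates compatibility -/
def conf (m : List (Fin 16 × Fin 16)) : Bool :=
  (List.finRange 16).any (fun e => reach m 16 e (sg e) || reach m 16 (sg e) e)

theorem conf_sound (m : List (Fin 16 × Fin 16)) (τ : Equiv.Perm (Fin 16))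
    (hm : ∀ p ∈ m, τ p.1 = p.2) (h : conf m = true) : ∃ e, τ.SameCycle e (sg e) := by
  rw [conf, List.any_eq_true] at h
  obtain ⟨e, -, h⟩ := h
  rw [Bool.or_eq_true] at h
  rcases h with h | h
  · exact ⟨e, reach_sound m τ hm _ _ _ h⟩
  · exact ⟨e, (reach_sound m τ hm _ _ _ h).symm⟩

/-- exhaustive search: every extension of `m` to a decomposition violates compatibility -/
def search : List (Fin 16) → List (Fin 16 × Fin 16) → Bool
  | [], m => conf m
  | x :: xs, m => conf m || (List.finRange 16).all (fun y =>
      tl y != hd x || m.any (fun p => p.2 == y && p.1 != x) || search xs ((x, y) :: m))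

theorem search_sound (τ : Equiv.Perm (Fin 16)) (hτ : ∀ e, tl (τ e) = hd e) :
    ∀ (xs : List (Fin 16)) (m : List (Fin 16 × Fin 16)), (∀ p ∈ m, τ p.1 = p.2) →
      search xs m = true → ∃ e, τ.SameCycle e (sg e) := by
  intro xs
  induction xs with
  | nil => intro m hm h; exact conf_sound m τ hm h
  | cons x xs ih =>
    intro m hm h
    rw [search, Bool.or_eq_true] at h
    rcases h with h | h
    · exact conf_sound m τ hm h
    · rw [List.all_eq_true] at h
      have h1 := h (τ x) (List.mem_finRange _)
      rw [Bool.or_eq_true, Bool.or_eq_true] at h1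
      rcases h1 with (h1 | h1) | h1
      · rw [hτ x] at h1
        simp at h1
      · rw [List.any_eq_true] at h1
        obtain ⟨p, hp, h1⟩ := h1
        rw [Bool.and_eq_true, beq_iff_eq, bne_iff_ne] at h1
        exact absurd (τ.injective ((hm p hp).trans h1.1)) h1.2
      · refine ih _ ?_ h1
        intro p hp
        rcases List.mem_cons.1 hp with rfl | hp
        · rfl
        · exact hm p hp

theorem search_true : search [4, 5, 8, 13, 1, 10, 14, 15, 2, 3, 7, 11, 0, 6, 9, 12] [] = true := by
  decide +kernel

/-- **4-arc-connectivity does not suffice**: there is a 4-arc-connected loopless Eulerian digraph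
with a 2-transition system that has no compatible decomposition. -/
theorem result : ¬ Suffices 4 := by
  intro h
  obtain ⟨τ, hτ, hc⟩ := h (Fin 4) (Fin 16) hd tl (by decide) (by decide +kernel) sgP (by decide)
  obtain ⟨e, he⟩ := search_sound τ hτ _ [] (by simp) search_true
  exact hc e he

end Pool.Agent.Results.MP_8148b3_co.FourNotEnough
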